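import Mathlib
import Pool.Agent.Helper11.Can.Defs
import Pool.Agent.Helper10.GIT.Valuation
import Pool.Agent.Helper10.GIT.Integral

/-!
# CAN-L3: unbalanced supports over a residue field (project CAN, MP_5f0950_ag)
-/

universe u

open Finset Matrix

namespace Pool.Agent.Helper11.Can

open Pool.Agent.Helper10.GIT Pool.Agent.Helper11.GIT

variable {P : ℕ} {d : Fin P → ℕ}

namespace L3

section mon

variable {Ω : Type u} [Field Ω]

/-- the embedding in the fraction field -/
noncomputable abbrev io (d : Fin P → ℕ) (Ω : Type u) [Field Ω] :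
    MvPolynomial (GV d) Ω →+* FractionRing (MvPolynomial (GV d) Ω) :=
  algebraMap _ _

/-- the products of coordinates of tensors of `A`, one of them in `N`, divided by generic
determinants -/
def mon (A N : Family d Ω) : Set (FractionRing (MvPolynomial (GV d) Ω)) :=
  {x | ∃ (I : Type) (_ : Fintype I) (χ : I → Shape P) (z : ∀ r, Ten d Ω (χ r))
    (w : ∀ r, Word d (χ r)) (e : Fin P → ℕ), (∀ r, z r ∈ A (χ r)) ∧ (∃ r, z r ∈ N (χ r)) ∧
    x = io d Ω (∏ r, cf (z r) (w r)) * (io d Ω (genDet d Ω e))⁻¹}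

lemma genDet_add (a b : Fin P → ℕ) :
    genDet d Ω (a + b) = genDet d Ω a * genDet d Ω b := by
  unfold genDet
  rw [← prod_mul_distrib]
  exact prod_congr rfl fun t _ => by rw [Pi.add_apply, pow_add]

lemma genDet_single (c : Fin P) : genDet d Ω (Pi.single c 1) = (gen d Ω c).det := by
  unfold genDet
  rw [prod_eq_single c]
  · rw [Pi.single_eq_same, pow_one]
  · intro b _ hb
    rw [Pi.single_eq_of_ne hb, pow_zero]
  · intro h; exact absurd (mem_univ c) h

lemma mon_inv {A N : Family d Ω} {x : FractionRing (MvPolynomial (GV d) Ω)} (hx : x ∈ mon A N)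
    (c : Fin P) : (io d Ω (gen d Ω c).det)⁻¹ * x ∈ mon A N := by
  obtain ⟨I, hI, χ, z, w, e, hz, hN, rfl⟩ := hx
  refine ⟨I, hI, χ, z, w, e + Pi.single c 1, hz, hN, ?_⟩
  rw [genDet_add, genDet_single, map_mul, mul_inv]
  ring

lemma mon_cf {A N : Family d Ω} {x : FractionRing (MvPolynomial (GV d) Ω)} (hx : x ∈ mon A N)
    {χ₀ : Shape P} {z₀ : Ten d Ω χ₀} (hz₀ : z₀ ∈ A χ₀) (w₀ : Word d χ₀) :
    io d Ω (cf z₀ w₀) * x ∈ mon A N := by
  obtain ⟨I, hI, χ, z, w, e, hz, hN, rfl⟩ := hx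
  refine ⟨Option I, inferInstance, fun o => o.elim χ₀ χ,
    fun o => Option.rec (motive := fun o : Option I => Ten d Ω (o.elim χ₀ χ)) z₀ z o,
    fun o => Option.rec (motive := fun o : Option I => Word d (o.elim χ₀ χ)) w₀ w o, e, ?_, ?_, ?_⟩
  · intro o
    cases o with
    | none => exact hz₀
    | some r => exact hz r
  · obtain ⟨r, hr⟩ := hN
    exact ⟨some r, hr⟩
  · rw [Fintype.prod_option, map_mul]
    exact (mul_assoc _ _ _).symm

lemma mon_gen {A N : Family d Ω} (hNA : ∀ χ, N χ ⊆ A χ) {χ₀ : Shape P} {z₀ : Ten d Ω χ₀}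
    (hz₀ : z₀ ∈ N χ₀) (w₀ : Word d χ₀) : io d Ω (cf z₀ w₀) ∈ mon A N := by
  refine ⟨Unit, inferInstance, fun _ => χ₀, fun _ => z₀, fun _ => w₀, 0, fun _ => hNA _ hz₀,
    ⟨(), hz₀⟩, ?_⟩
  have h0 : genDet d Ω 0 = 1 := by
    unfold genDet
    exact prod_eq_one fun t _ => by rw [Pi.zero_apply, pow_zero]
  rw [h0, map_one, inv_one, mul_one, Fintype.prod_unique]

/-- the subalgebra generated by the coordinates of tensors of `A` and the inverses of the generic
determinants -/
noncomputable def alg (A : Family d Ω) :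
    Subalgebra Ω (FractionRing (MvPolynomial (GV d) Ω)) :=
  Algebra.adjoin Ω ({x | ∃ c, x = (io d Ω (gen d Ω c).det)⁻¹} ∪
    {x | ∃ χ, ∃ z ∈ A χ, ∃ w : Word d χ, x = io d Ω (cf z w)})

lemma alg_mul_mem {A N : Family d Ω} {s : FractionRing (MvPolynomial (GV d) Ω)}
    (hs : s ∈ alg A) : ∀ x ∈ Submodule.span Ω (mon A N), s * x ∈ Submodule.span Ω (mon A N) := by
  unfold alg at hs
  induction hs using Algebra.adjoin_induction with
  | mem s hs =>
    intro x hx
    induction hx using Submodule.span_induction with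
    | mem x hx =>
      rcases hs with ⟨c, rfl⟩ | ⟨χ, z, hz, w, rfl⟩
      · exact Submodule.subset_span (mon_inv hx c)
      · exact Submodule.subset_span (mon_cf hx hz w)
    | zero => rw [mul_zero]; exact Submodule.zero_mem _
    | add x y _ _ hx hy => rw [mul_add]; exact Submodule.add_mem _ hx hy
    | smul a x _ hx => rw [mul_smul_comm]; exact Submodule.smul_mem _ _ hx
  | algebraMap a =>
    intro x hx
    rw [← Algebra.smul_def]
    exact Submodule.smul_mem _ _ hx
  | add s t _ _ hs ht =>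
    intro x hx
    rw [add_mul]
    exact Submodule.add_mem _ (hs x hx) (ht x hx)
  | mul s t _ _ hs ht =>
    intro x hx
    rw [mul_assoc]
    exact hs _ (ht x hx)

lemma kill [CharZero Ω] {A N : Family d Ω}
    (hfis : ∀ (e : Fin P → ℕ) {I : Type} [Fintype I] (χ : I → Shape P) (z : ∀ r, Ten d Ω (χ r)),
      (∀ r, z r ∈ A (χ r)) → (∃ r, z r ∈ N (χ r)) → ∀ w : ∀ r, Word d (χ r),
      fis (genDet d Ω e) (∏ r, cf (z r) (w r)) = 0)
    (hadd : ∀ a b : Fin P → ℕ, ∃ β : Ω, ∀ Q,
      fis (genDet d Ω (a + b)) (Q * genDet d Ω b) = β * fis (genDet d Ω a) Q)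
    {x : FractionRing (MvPolynomial (GV d) Ω)} (hx : x ∈ Submodule.span Ω (mon A N)) :
    ∃ j : Fin P → ℕ, ∀ J, j ≤ J → ∃ Q, io d Ω Q = io d Ω (genDet d Ω J) * x ∧
      fis (genDet d Ω J) Q = 0 := by
  induction hx using Submodule.span_induction with
  | mem x hx =>
    obtain ⟨I, hI, χ, z, w, e, hz, hN, rfl⟩ := hx
    refine ⟨e, fun J hJ => ⟨(∏ r, cf (z r) (w r)) * genDet d Ω (J - e), ?_, ?_⟩⟩
    · have h1 : genDet d Ω J = genDet d Ω e * genDet d Ω (J - e) := by
        rw [← genDet_add, add_tsub_cancel_of_le hJ]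
      have h2 : io d Ω (genDet d Ω e) ≠ 0 := by
        rw [Ne, map_eq_zero_iff _ (IsFractionRing.injective _ _)]
        exact genDet_ne_zero e
      rw [h1, map_mul, map_mul]
      field_simp
    · obtain ⟨β, hβ⟩ := hadd e (J - e)
      rw [add_tsub_cancel_of_le hJ] at hβ
      rw [hβ, hfis e χ z hz hN w, mul_zero]
  | zero => exact ⟨0, fun J _ => ⟨0, by rw [map_zero, mul_zero], map_zero _⟩⟩
  | add x y _ _ hx hy =>
    obtain ⟨j, hj⟩ := hx
    obtain ⟨j', hj'⟩ := hy
    refine ⟨j ⊔ j', fun J hJ => ?_⟩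
    obtain ⟨Q, hQ, hQ0⟩ := hj J (le_sup_left.trans hJ)
    obtain ⟨Q', hQ', hQ0'⟩ := hj' J (le_sup_right.trans hJ)
    refine ⟨Q + Q', ?_, ?_⟩
    · rw [map_add, hQ, hQ', mul_add]
    · rw [map_add, hQ0, hQ0', add_zero]
  | smul a x _ hx =>
    obtain ⟨j, hj⟩ := hx
    refine ⟨j, fun J hJ => ?_⟩
    obtain ⟨Q, hQ, hQ0⟩ := hj J hJ
    refine ⟨a • Q, ?_, ?_⟩
    · rw [mul_smul_comm, ← hQ]
      change algebraMap _ _ (a • Q) = a • algebraMap _ _ Q
      rw [Algebra.smul_def, map_mul, ← IsScalarTower.algebraMap_apply, ← Algebra.smul_def]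
    · rw [map_smul, hQ0, smul_zero]

variable [CharZero Ω]

lemma one_not_mem {A N : Family d Ω}
    (hfis : ∀ (e : Fin P → ℕ) {I : Type} [Fintype I] (χ : I → Shape P) (z : ∀ r, Ten d Ω (χ r)),
      (∀ r, z r ∈ A (χ r)) → (∃ r, z r ∈ N (χ r)) → ∀ w : ∀ r, Word d (χ r),
      fis (genDet d Ω e) (∏ r, cf (z r) (w r)) = 0)
    (hadd : ∀ a b : Fin P → ℕ, ∃ β : Ω, ∀ Q,
      fis (genDet d Ω (a + b)) (Q * genDet d Ω b) = β * fis (genDet d Ω a) Q) :
    (1 : FractionRing (MvPolynomial (GV d) Ω)) ∉ Submodule.span Ω (mon A N) := by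
  intro h
  obtain ⟨j, hj⟩ := kill hfis hadd h
  obtain ⟨Q, hQ, hQ0⟩ := hj j le_rfl
  rw [mul_one] at hQ
  have h1 : Q = genDet d Ω j := IsFractionRing.injective _ _ hQ
  rw [h1] at hQ0
  have h2 := fis_genDet_self (n := d) (Ω := Ω) j 1
  rw [pow_one] at h2
  exact h2 hQ0

/-- the valuation ring -/
lemma exists_val {A N : Family d Ω} (hNA : ∀ χ, N χ ⊆ A χ)
    (hfis : ∀ (e : Fin P → ℕ) {I : Type} [Fintype I] (χ : I → Shape P) (z : ∀ r, Ten d Ω (χ r)),
      (∀ r, z r ∈ A (χ r)) → (∃ r, z r ∈ N (χ r)) → ∀ w : ∀ r, Word d (χ r),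
      fis (genDet d Ω e) (∏ r, cf (z r) (w r)) = 0)
    (hadd : ∀ a b : Fin P → ℕ, ∃ β : Ω, ∀ Q,
      fis (genDet d Ω (a + b)) (Q * genDet d Ω b) = β * fis (genDet d Ω a) Q) :
    ∃ V : ValuationSubring (FractionRing (MvPolynomial (GV d) Ω)),
      (∀ a : Ω, io d Ω (MvPolynomial.C a) ∈ V) ∧ (∀ c, (io d Ω (gen d Ω c).det)⁻¹ ∈ V) ∧
      (∀ χ, ∀ z ∈ A χ, ∀ w : Word d χ, io d Ω (cf z w) ∈ V) ∧
      (∀ χ, ∀ z ∈ N χ, ∀ w : Word d χ, io d Ω (cf z w) ∈ V.nonunits) := by
  let S := (alg A).toSubring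
  let T : Set S := {s | ∃ χ, ∃ z ∈ N χ, ∃ w : Word d χ, (s : FractionRing _) = io d Ω (cf z w)}
  have hI : Ideal.span T ≠ ⊤ := by
    intro h
    have h1 : ∀ s ∈ Ideal.span T, (s : FractionRing (MvPolynomial (GV d) Ω)) ∈
        Submodule.span Ω (mon A N) := by
      intro s hs
      induction hs using Submodule.span_induction with
      | mem s hs =>
        obtain ⟨χ, z, hz, w, hs⟩ := hs
        rw [hs]
        exact Submodule.subset_span (mon_gen hNA hz w)
      | zero => exact Submodule.zero_mem _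
      | add s t _ _ hs ht => exact Submodule.add_mem _ hs ht
      | smul a s _ hs =>
        change (a : FractionRing (MvPolynomial (GV d) Ω)) * s ∈ _
        exact alg_mul_mem a.2 _ hs
    have h2 : (1 : S) ∈ Ideal.span T := by rw [h]; trivial
    exact one_not_mem hfis hadd (h1 1 h2)
  obtain ⟨V, hV, hVI⟩ := Ideal.image_subset_nonunits_valuationSubring _ hI
  have hA : ∀ χ, ∀ z ∈ A χ, ∀ w : Word d χ, io d Ω (cf z w) ∈ alg A := fun χ z hz w =>
    Algebra.subset_adjoin (Or.inr ⟨χ, z, hz, w, rfl⟩)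
  refine ⟨V, fun a => ?_, fun c => ?_, fun χ z hz w => ?_, fun χ z hz w => ?_⟩
  · refine hV ?_
    change io d Ω (MvPolynomial.C a) ∈ alg A
    have h1 : io d Ω (MvPolynomial.C a) = algebraMap Ω _ a := by
      rw [IsScalarTower.algebraMap_apply Ω (MvPolynomial (GV d) Ω) (FractionRing _)]
      rfl
    rw [h1]
    exact (alg A).algebraMap_mem a
  · refine hV ?_
    exact Algebra.subset_adjoin (Or.inl ⟨c, rfl⟩)
  · exact hV (hA χ z hz w)
  · refine hVI ⟨⟨_, hA χ z (hNA _ hz) w⟩, Ideal.subset_span ⟨χ, z, hz, w, rfl⟩, rfl⟩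

end mon

end L3

theorem exists_unbal {Ω : Type u} [Field Ω] [CharZero Ω] {A N : Family d Ω}
    (hNA : ∀ χ, N χ ⊆ A χ)
    (hfis : ∀ (e : Fin P → ℕ) {I : Type} [Fintype I] (χ : I → Shape P) (z : ∀ r, Ten d Ω (χ r)),
      (∀ r, z r ∈ A (χ r)) → (∃ r, z r ∈ N (χ r)) → ∀ w : ∀ r, Word d (χ r),
      fis (genDet d Ω e) (∏ r, cf (z r) (w r)) = 0)
    (hadd : ∀ a b : Fin P → ℕ, ∃ β : Ω, ∀ Q,
      fis (genDet d Ω (a + b)) (Q * genDet d Ω b) = β * fis (genDet d Ω a) Q) :
    ∃ (κ : Type u) (_ : Field κ) (_ : Algebra Ω κ) (h : Mats d κ), (∀ c, (h c).det ≠ 0) ∧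
      Unbal (suppW h (ext κ A)) (suppW h (ext κ N)) := by
  classical
  let F := FractionRing (MvPolynomial (GV d) Ω)
  let ι : MvPolynomial (GV d) Ω →+* F := L3.io d Ω
  obtain ⟨V, hΩ, hdet, hVA, hVN⟩ := L3.exists_val hNA hfis hadd
  let ψ : Ω →+* V := (ι.comp MvPolynomial.C).codRestrict V.toSubring hΩ
  -- Smith form
  let G : Mats d F := fun t => (gen d Ω t).map ι
  choose k h t hk hh hG using fun c => hasSmith_fin (V := V) (d c) (G c)
  -- the coordinates, up to elements of an ideal of `V`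
  have hcoord : ∀ (J : Ideal V) (χ : Shape P) (z : Ten d Ω χ),
      (∀ w, ∃ v ∈ J, (v : F) = ι (cf z w)) → ∀ w, ∃ v ∈ J,
        (v : F) = (∏ i, t (χ.2 i) (w i)) * ((act (sh h χ) (fun w' => ψ (z w')) w : V) : F) := by
    intro J χ z hz w
    choose u hu hu' using hz
    have hGχ : sh G χ = (fun i => (sh k χ i).map V.subtype) *
        (fun i => diagonal (t (χ.2 i))) * (fun i => (sh h χ i).map V.subtype) :=
      funext fun i => hG (χ.2 i)
    have h1 : act (sh G χ) (fun w' => ι (MvPolynomial.C (z w'))) = fun w => V.subtype (u w) := by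
      funext w
      have h3 := congrFun (act_map ι (sh (gen d Ω) χ) (fun w' => MvPolynomial.C (z w'))) w
      refine h3.trans ?_
      exact (hu' w).symm
    have h4 : act (fun i => (sh k χ i).map V.subtype) (act (fun i => diagonal (t (χ.2 i)))
        (fun w => V.subtype (act (sh h χ) (fun w' => ψ (z w')) w))) =
          fun w => V.subtype (u w) := by
      rw [← act_map V.subtype (sh h χ), ← act_mul, ← act_mul, ← hGχ, ← h1]
      rfl
    have h5 := congrArg (act (fun i => ((sh k χ i)⁻¹).map V.subtype)) h4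
    rw [← act_mul, act_map] at h5
    have h6 : (fun i => ((sh k χ i)⁻¹).map V.subtype) * (fun i => (sh k χ i).map V.subtype) =
        (1 : Mats (dims d χ) F) := by
      funext i
      have h8 : (sh k χ i)⁻¹ * sh k χ i = 1 := nonsing_inv_mul _ (hk (χ.2 i))
      rw [Pi.mul_apply, ← Matrix.map_mul, h8, Matrix.map_one _ (map_zero _) (map_one _)]
      rfl
    rw [h6, act_one] at h5
    have h7 := congrFun h5 w
    rw [act_diagonal] at h7
    refine ⟨act (fun i => (sh k χ i)⁻¹) u w, ?_, h7.symm⟩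
    rw [act_apply]
    exact sum_mem fun w' _ => J.mul_mem_left _ (hu w')
  -- the residue field
  let κ := IsLocalRing.ResidueField V
  let res : V →+* κ := IsLocalRing.residue V
  let _ : Algebra Ω κ := (res.comp ψ).toAlgebra
  refine ⟨κ, inferInstance, inferInstance, fun c => (h c).map res, fun c => ?_, ?_⟩
  · have h1 : ((h c).map res).det = res (h c).det := (RingHom.map_det res (h c)).symm
    rw [h1]
    exact ((hh c).map res).ne_zero
  · -- the weights of the support
    have hsupp : ∀ (J : Ideal V) (B : Family d Ω),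
        (∀ χ, ∀ z ∈ B χ, ∀ w, ∃ v ∈ J, (v : F) = ι (cf z w)) →
        ∀ w ∈ suppW (fun c => (h c).map res) (ext κ B), ∃ v ∈ J,
          (v : F) = ∏ i, t (w.1.2 i) (w.2 i) := by
      rintro J B hB ⟨χ, w⟩ ⟨_, ⟨z, hz, rfl⟩, hw⟩
      have h2 : act (sh (fun c => (h c).map res) χ) (emb κ z) w =
          res (act (sh h χ) (fun w' => ψ (z w')) w) := congrFun (act_map res (sh h χ) _) w
      have h3 : IsUnit (act (sh h χ) (fun w' => ψ (z w')) w) := by
        by_contra h4
        refine hw (h2.trans ?_)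
        exact (IsLocalRing.residue_eq_zero_iff _).mpr h4
      obtain ⟨v, hv, hv'⟩ := hcoord J χ z (hB χ z hz) w
      obtain ⟨y, hy⟩ := h3
      refine ⟨((y⁻¹ : Vˣ) : V) * v, J.mul_mem_left _ hv, ?_⟩
      rw [MulMemClass.coe_mul, hv', ← hy]
      have : (((y⁻¹ : Vˣ) : V) : F) * ((y : V) : F) = 1 := by
        rw [← MulMemClass.coe_mul, Units.inv_mul]; rfl
      calc (((y⁻¹ : Vˣ) : V) : F) * ((∏ i, t (χ.2 i) (w i)) * ((y : V) : F))
          = ((((y⁻¹ : Vˣ) : V) : F) * ((y : V) : F)) * (∏ i, t (χ.2 i) (w i)) := by ring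
        _ = _ := by rw [this, one_mul]
    have hA := hsupp ⊤ A fun χ z hz w => ⟨⟨_, hVA χ z hz w⟩, trivial, rfl⟩
    have hN := hsupp (IsLocalRing.maximalIdeal V) N fun χ z hz w => by
      obtain ⟨h1, h2⟩ := ValuationSubring.mem_nonunits_iff_exists_mem_maximalIdeal.mp
        (hVN χ z hz w)
      exact ⟨_, h2, rfl⟩
    rintro ⟨I, hI, W, m, hWA, ⟨r₀, hr₀⟩, hcnt⟩
    choose v _ hv using fun r => hA (W r) (hWA r)
    obtain ⟨v₀, hv₀, hv₀'⟩ := hN (W r₀) hr₀
    have hv₀v : v r₀ = v₀ := Subtype.ext ((hv r₀).trans hv₀'.symm)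
    have hprod : (∏ r, v r) ∈ IsLocalRing.maximalIdeal V := by
      rw [← mul_prod_erase univ v (mem_univ r₀), hv₀v]
      exact Ideal.mul_mem_right _ _ hv₀
    have heq : ((∏ r, v r : V) : F) = ∏ c, (∏ a, t c a) ^ m c := by
      calc ((∏ r, v r : V) : F) = ∏ r, ∏ i, t ((W r).1.2 i) ((W r).2 i) := by
            rw [SubmonoidClass.coe_finsetProd]
            exact prod_congr rfl fun r _ => hv r
        _ = ∏ r, ∏ l : Let d, t l.1 l.2 ^ cnt (W r) l := by
            refine prod_congr rfl fun r _ => ?_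
            have h1 := prod_fiberwise (s := univ) (g := fun i => lt (W r).2 i)
              (f := fun i => t ((W r).1.2 i) ((W r).2 i))
            rw [← h1]
            refine prod_congr rfl fun l _ => ?_
            rw [cnt, ← prod_const]
            refine prod_congr rfl fun i hi => ?_
            rw [mem_filter] at hi
            rw [← hi.2]
            rfl
        _ = ∏ l : Let d, ∏ r, t l.1 l.2 ^ cnt (W r) l := prod_comm
        _ = ∏ l : Let d, t l.1 l.2 ^ m l.1 := by
            refine prod_congr rfl fun l _ => ?_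
            rw [prod_pow_eq_pow_sum, hcnt l]
        _ = _ := by
            rw [Fintype.prod_sigma]
            exact prod_congr rfl fun c _ => prod_pow univ (m c) (t c)
    -- the generic determinants are units
    have hGdet : ∀ c, ι (gen d Ω c).det = (((k c).det * (h c).det : V) : F) * ∏ a, t c a := by
      intro c
      have h2 : ι (gen d Ω c).det = (G c).det := RingHom.map_det ι _
      have h3 : ((k c).map V.subtype).det = (((k c).det : V) : F) :=
        (RingHom.map_det V.subtype (k c)).symm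
      have h4 : ((h c).map V.subtype).det = (((h c).det : V) : F) :=
        (RingHom.map_det V.subtype (h c)).symm
      rw [h2, hG c, det_mul, det_mul, det_diagonal, h3, h4]
      push_cast
      ring
    have hGne : ∀ c, ι (gen d Ω c).det ≠ 0 := by
      intro c
      rw [Ne, map_eq_zero_iff _ (IsFractionRing.injective _ _)]
      exact det_gen_ne_zero c
    let q : Fin P → V := fun c => ⟨_, hdet c⟩ * ((k c).det * (h c).det)
    have hq : ∀ c, (q c : F) * ∏ a, t c a = 1 := by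
      intro c
      change (ι (gen d Ω c).det)⁻¹ * (((k c).det * (h c).det : V) : F) * ∏ a, t c a = 1
      rw [mul_assoc, ← hGdet c, inv_mul_cancel₀ (hGne c)]
    have h1 : (∏ c, q c ^ m c) * ∏ r, v r = 1 := by
      apply Subtype.ext
      rw [MulMemClass.coe_mul, heq, SubmonoidClass.coe_finsetProd, ← prod_mul_distrib]
      refine prod_eq_one fun c _ => ?_
      rw [SubmonoidClass.coe_pow, ← mul_pow, hq c, one_pow]
    have h2 : (1 : V) ∈ IsLocalRing.maximalIdeal V := by
      rw [← h1]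
      exact Ideal.mul_mem_left _ _ hprod
    exact (Ideal.ne_top_iff_one _).mp (IsLocalRing.maximalIdeal.isMaximal V).ne_top h2

end Pool.Agent.Helper11.Can
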